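import Pool.Agent.H24.BZ.Targets
import Pool.Agent.H75.MCL.BLK
import Pool.Agent.H39.MCL.BLB

/-!
# Many bad windows give a slowly varying sign, natural density (row VBK of the board BZ)
-/

set_option autoImplicit false

open Finset Filter Topology

namespace Pool.Agent.H16.BZ

open Pool.Agent.H24.BZ
open Pool.Agent.H28.MCL (Bad Bd ind lc ws)
open Pool.Agent.H27.T2 (bi bl bl_eq bl_spec card_window_le)
open Pool.Agent.H75.MCL (lc_val lc_change exists_class)
open Pool.Agent.H39.MCL (opp_le)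

open Classical in
/-- the support contains the windows -/
lemma supp_ge (f : ℕ → ℝ) (κ : ℝ) (Q c h o X : ℕ) (hh : 0 < h) (ho : o < h) :
    h * ((((Icc 1 X).filter (fun n => Bad f κ Q c h n ∧ n ≡ o [MOD h])).filter
      (fun n => n + h ≤ X)).card) ≤
      ((Icc 1 X).filter (fun z => lc f κ Q c h o z ≠ 0)).card := by
  set B := ((Icc 1 X).filter (fun n => Bad f κ Q c h n ∧ n ≡ o [MOD h])).filter
      (fun n => n + h ≤ X) with hB
  have hinj : Set.InjOn (fun z : ℕ × ℕ => z.1 + 1 + z.2) (B ×ˢ range h : Finset (ℕ × ℕ)) := by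
    rintro ⟨a, i⟩ ha ⟨b, j⟩ hb hab
    rw [mem_coe, mem_product, mem_range, hB, mem_filter, mem_filter] at ha hb
    simp only at ha hb hab
    have e1 := bl_eq (m := a + 1 + i) hh ho ha.1.1.2.2 (by omega) (by omega)
    have e2 := bl_eq (m := b + 1 + j) hh ho hb.1.1.2.2 (by omega) (by omega)
    rw [hab] at e1
    have : a = b := e1.1.symm.trans e2.1
    subst this
    have : i = j := by omega
    rw [this]
  have h1 : ((B ×ˢ range h).image (fun z : ℕ × ℕ => z.1 + 1 + z.2)).card = B.card * h := by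
    rw [Finset.card_image_of_injOn hinj, Finset.card_product, card_range]
  rw [mul_comm, ← h1]
  apply Finset.card_le_card
  intro m hm
  rw [mem_image] at hm
  obtain ⟨⟨n, i⟩, hni, rfl⟩ := hm
  rw [mem_product, mem_range, hB, mem_filter, mem_filter, mem_Icc] at hni
  simp only at hni ⊢
  obtain ⟨e1, e2⟩ := bl_eq (m := n + 1 + i) hh ho hni.1.1.2.2 (by omega) (by omega)
  rw [mem_filter, mem_Icc]
  refine ⟨⟨by omega, by omega⟩, ?_⟩
  unfold lc
  rw [e1, if_pos ⟨by omega, e2, hni.1.1.2.1⟩]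
  split_ifs <;> norm_num

open Classical in
/-- at most one window ends behind `X` -/
lemma last_le (f : ℕ → ℝ) (κ : ℝ) (Q c h o X : ℕ) (hX : h ≤ X) :
    ((Icc 1 X).filter (fun n => Bad f κ Q c h n ∧ n ≡ o [MOD h])).card ≤
      (((Icc 1 X).filter (fun n => Bad f κ Q c h n ∧ n ≡ o [MOD h])).filter
      (fun n => n + h ≤ X)).card + 1 := by
  set A := (Icc 1 X).filter (fun n => Bad f κ Q c h n ∧ n ≡ o [MOD h]) with hA
  have hc : (A.filter (fun n => ¬ n + h ≤ X)).card ≤ 1 := by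
    rw [Finset.card_le_one]
    intro a ha b hb
    rw [mem_filter, hA, mem_filter, mem_Icc] at ha hb
    have h3 : a - (X + 1 - h) ≡ b - (X + 1 - h) [MOD h] := by
      apply Nat.ModEq.add_right_cancel' (X + 1 - h)
      rw [Nat.sub_add_cancel (by omega), Nat.sub_add_cancel (by omega)]
      exact ha.1.2.2.trans hb.1.2.2.symm
    have h4 : (a - (X + 1 - h)) % h = (b - (X + 1 - h)) % h := h3
    rw [Nat.mod_eq_of_lt (by omega), Nat.mod_eq_of_lt (by omega)] at h4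
    omega
  have := Finset.card_filter_add_card_filter_not (s := A) (fun n => n + h ≤ X)
  omega

open Classical in
/-- the opposite signs, counted -/
lemma err_le (f : ℕ → ℝ) (κ : ℝ) (Q c h o X : ℕ) (hf : ∀ n, f n = 1 ∨ f n = -1) (hQ : 0 < Q)
    (hh : 0 < h) (ho : o < h) :
    (((Icc 1 X).filter (fun z => z ≡ c [MOD Q] ∧ lc f κ Q c h o z ≠ 0 ∧
      f z ≠ (lc f κ Q c h o z : ℝ))).card : ℝ) ≤
      (((Icc 1 X).filter (fun n => Bad f κ Q c h n ∧ n ≡ o [MOD h])).card : ℝ) *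
        ((κ * h / Q + 1) / 2) := by
  set S := (Icc 1 X).filter (fun z => z ≡ c [MOD Q] ∧ lc f κ Q c h o z ≠ 0 ∧
      f z ≠ (lc f κ Q c h o z : ℝ)) with hS
  set A := (Icc 1 X).filter (fun n => Bad f κ Q c h n ∧ n ≡ o [MOD h]) with hA
  have key : ∀ m ∈ S, bl h o m < m ∧ m ≤ bl h o m + h ∧ bl h o m ≡ o [MOD h] ∧
      Bad f κ Q c h (bl h o m) ∧ m ≡ c [MOD Q] ∧
      f m ≠ (((if 0 ≤ ws f Q c (bl h o m) h then 1 else -1 : ℤ)) : ℝ) ∧ 1 ≤ bl h o m ∧
      m ≤ X := by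
    intro m hm
    rw [hS, mem_filter, mem_Icc] at hm
    obtain ⟨hm1, hm2, hm3, hm4⟩ := hm
    unfold lc at hm3 hm4
    by_cases hc : 1 ≤ bl h o m ∧ 1 ≤ bi h o m ∧ Bad f κ Q c h (bl h o m)
    · rw [if_pos hc] at hm4
      obtain ⟨e1, e2, e3⟩ := bl_spec hh ho (by omega : 1 ≤ m) hc.2.1
      exact ⟨e1, e2, e3, hc.2.2, hm2, hm4, hc.1, hm1.2⟩
    · rw [if_neg hc] at hm3
      exact absurd rfl hm3
  have hmaps : ∀ m ∈ S, bl h o m ∈ A := by
    intro m hm
    obtain ⟨e1, e2, e3, e4, e5, e6, e7, e8⟩ := key m hm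
    rw [hA, mem_filter, mem_Icc]
    exact ⟨⟨e7, by omega⟩, e4, e3⟩
  rw [Finset.card_eq_sum_card_fiberwise hmaps, Nat.cast_sum, ← nsmul_eq_mul,
    ← Finset.sum_const]
  apply Finset.sum_le_sum
  intro n hn
  rw [hA, mem_filter, mem_Icc] at hn
  refine le_trans ?_ (opp_le hf hQ hn.2.1 _ rfl)
  rw [Nat.cast_le]
  apply Finset.card_le_card
  intro m hm
  rw [mem_filter] at hm
  obtain ⟨e1, e2, e3, e4, e5, e6, e7, e8⟩ := key m hm.1
  rw [hm.2] at e1 e2 e6
  rw [mem_filter, mem_Ioc]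
  exact ⟨⟨e1, e2⟩, e5, e6⟩

theorem pf_VBK : T_VBK := by
  classical
  intro f κ δ Q c hf hκ hδ hQ
  have hQR : (0 : ℝ) < Q := by exact_mod_cast hQ
  refine ⟨⌈4 * Q / κ⌉₊ + 1, fun h hh => ?_⟩
  have hhpos : 0 < h := by omega
  have hhR : (0 : ℝ) < h := by exact_mod_cast hhpos
  have hhQ : 4 * Q / κ ≤ (h : ℝ) := by
    have h1 : (⌈4 * Q / κ⌉₊ : ℝ) ≤ h := by
      exact_mod_cast (by omega : ⌈4 * Q / κ⌉₊ ≤ h)
    exact (Nat.le_ceil _).trans h1
  have hu : 4 ≤ κ * h / Q := by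
    rw [le_div_iff₀ hQR]
    rw [div_le_iff₀ hκ] at hhQ
    linarith
  refine ⟨⌈4 * h / δ⌉₊ + h, fun X hX hbad => ?_⟩
  have hXh : h ≤ X := by omega
  have hXhR : (h : ℝ) ≤ X := by exact_mod_cast hXh
  have hXδ : 4 * (h : ℝ) ≤ δ * X := by
    have h1 : (⌈4 * h / δ⌉₊ : ℝ) ≤ X := by
      exact_mod_cast (by omega : ⌈4 * h / δ⌉₊ ≤ X)
    have h2 : 4 * (h : ℝ) / δ ≤ X := (Nat.le_ceil _).trans h1
    rw [div_le_iff₀ hδ] at h2
    linarith
  have hmass0 : δ * X < ∑ n ∈ (Icc 1 X).filter (fun n => Bad f κ Q c h n), (1 : ℝ) := by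
    have h1 : δ * X < ∑ n ∈ Icc 1 X, ind (Bad f κ Q c h) n := hbad
    rw [Finset.sum_filter]
    refine h1.trans_le (le_of_eq (Finset.sum_congr rfl fun n _ => ?_))
    unfold ind
    rfl
  obtain ⟨o, ho, hmass⟩ := exists_class (Icc 1 X) (fun n => Bad f κ Q c h n)
    (fun _ => (1 : ℝ)) h hhpos (δ * X) hmass0
  rw [Finset.sum_const, nsmul_eq_mul, mul_one] at hmass
  have hlast := last_le f κ Q c h o X hXh
  have hsupp := supp_ge f κ Q c h o X hhpos ho
  have herr := err_le f κ Q c h o X hf hQ hhpos ho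
  set a : ℕ := ((Icc 1 X).filter (fun n => Bad f κ Q c h n ∧ n ≡ o [MOD h])).card with ha
  set b : ℕ := (((Icc 1 X).filter (fun n => Bad f κ Q c h n ∧ n ≡ o [MOD h])).filter
      (fun n => n + h ≤ X)).card with hb
  set s : ℕ := ((Icc 1 X).filter (fun z => lc f κ Q c h o z ≠ 0)).card with hs
  have hlastR : (a : ℝ) ≤ b + 1 := by exact_mod_cast hlast
  have hsuppR : (h : ℝ) * b ≤ s := by exact_mod_cast hsupp
  have hbig : δ * X < h * ((b : ℝ) + 1) := hmass.trans_le (mul_le_mul_of_nonneg_left hlastR hhR.le)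
  have hb3 : (3 : ℝ) < (b : ℝ) := by
    have h1 : (h : ℝ) * 4 < h * ((b : ℝ) + 1) := by linarith
    have h2 := lt_of_mul_lt_mul_left h1 hhR.le
    linarith
  refine ⟨lc f κ Q c h o, lc_val f κ Q c h o, ?_, ?_, ?_⟩
  · -- changes
    have h1 : ((Icc 1 X).filter (fun z => lc f κ Q c h o z ≠ lc f κ Q c h o (z + 1))).card ≤
        ((Ioc 0 (0 + X)).filter (fun n => n ≡ o [MOD h])).card := by
      apply Finset.card_le_card
      intro m hm
      rw [mem_filter, mem_Icc] at hm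
      rw [mem_filter, mem_Ioc]
      exact ⟨⟨by omega, by omega⟩, lc_change ho (by omega) hm.2⟩
    have h2 := card_window_le h X 0 o
    have h3 : (((Icc 1 X).filter (fun z => lc f κ Q c h o z ≠ lc f κ Q c h o (z + 1))).card : ℝ) ≤
        (((Ioc 0 (0 + X)).filter (fun n => n ≡ o [MOD h])).card : ℝ) := by exact_mod_cast h1
    refine (h3.trans h2).trans ?_
    have h4 : 4 / (h : ℝ) * X = X / h + 3 * (X / h) := by
      field_simp
      ring
    have h5 : (1 : ℝ) ≤ X / h := by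
      rw [le_div_iff₀ hhR]
      linarith
    rw [h4]
    linarith
  · -- support
    have h1 : δ * X < h * (b : ℝ) + h := by linarith
    linarith
  · -- errors
    refine herr.trans ?_
    have h1 : (a : ℝ) * ((κ * h / Q + 1) / 2) ≤ ((b : ℝ) + 1) * ((κ * h / Q + 1) / 2) :=
      mul_le_mul_of_nonneg_right hlastR (by linarith)
    have h2 : ((b : ℝ) + 1) * ((κ * h / Q + 1) / 2) ≤ κ * h / Q * b := by
      nlinarith
    have h3 : κ * h / Q * b = κ / Q * (h * b) := by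
      field_simp
    have h4 : κ / Q * (h * b) ≤ κ / Q * s := mul_le_mul_of_nonneg_left hsuppR (by positivity)
    linarith

end Pool.Agent.H16.BZ
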